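import Pool.Agent.Helper73.LFU.FOU1B
import Pool.Agent.Helper73.LF.Final
import Pool.Agent.Helper45.LFU.UB
import Pool.Agent.Helper92.LFU.BLKU
import Pool.Agent.Helper87.LU.MainUB
import Pool.Agent.Helper87.LU.Asm

/-!
# Form UB, assembly (MP_c307ca_nt)
-/

set_option autoImplicit false

namespace Pool.Agent.Helper73.LFU

open Pool.Agent.Helper98.Lang Pool.Agent.Helper73.LF Pool.Agent.Helper92.LFU

theorem fou1B' : Pool.Agent.Helper45.LFU.GFou1B := by
  intro m M T θ γ hT hθ S hS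
  refine fou1B m M T θ γ hT hθ S (fun a ha => ⟨(hS a ha).1, ?_⟩)
  rw [add_comm]
  exact (hS a ha).2

/-- the case `A + α < 1`, with a shift -/
theorem stmtGB : Pool.Agent.Helper87.LU.StmtGB := by
  intro e he
  obtain ⟨C, hC⟩ := Pool.Agent.Helper45.LFU.finub gsch Pool.Agent.Helper34.MD.mdCNT fou1B'
    (blku_of gsum) glog e he
  refine ⟨C, fun m x hm hx hind c A α hc hA => ?_⟩
  obtain ⟨N0, hN0⟩ := hC m x hm hx hind c A α hc hA
  exact ⟨N0, fun M d s h1 h2 h3 β Q hQ => hN0 β M d s h1 h2 h3 Q hQ⟩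

/-- The main theorem, with a shift. -/
theorem finalB : Pool.Agent.Helper87.LU.MainUB :=
  Pool.Agent.Helper87.LU.mainUB Pool.Agent.Helper87.MD.main stmtGB

end Pool.Agent.Helper73.LFU
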