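import Pool.Agent.Helper92.LFU.Goals

/-!
# Linear forms and division points (MP_c307ca_nt): form U with a shift
-/

set_option autoImplicit false

open Finset
open scoped Classical

namespace Pool.Agent.Helper73.LFU

open Pool.Agent.Helper98.Lang Pool.Agent.Helper73.LF Pool.Agent.Helper92.LFU

/-- **FOU1 with a shift.** -/
def GFou1B : Prop := ∀ (m M T : ℕ) (θ : Fin m → ℝ) (β : ℝ), 1 ≤ T →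
  (∀ h : ℕ, 1 ≤ h → ∀ i, 0 < nd (h * θ i)) →
  ∀ S : Finset (Fin m → ℕ),
    (∀ a ∈ S, (∀ i, 1 ≤ a i ∧ a i ≤ M) ∧ nd (β + ∑ i, (a i : ℝ) * θ i) ≤ 1 / (2 * T)) →
    (S.card : ℝ) ≤ 3 / T * ((M : ℝ) ^ m + 2 * ∑ h ∈ Ico 1 T, PM θ M h)

/-- the case `A + α < 1`, with a shift -/
def StmtGB : Prop := ∀ e : ℝ, 0 < e → ∃ C : ℝ, ∀ (m : ℕ) (x : Fin m → ℝ), 1 ≤ m →
  (∀ i, IsAlgebraic ℚ (x i)) → Indep x → ∀ c A α : ℝ, 0 < c → A + α < 1 →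
  ∃ N0 : ℕ, ∀ M d s : ℕ, N0 ≤ M ^ m * d → 1 ≤ s → (s : ℝ) ≤ ((M : ℝ) ^ m * d) ^ α →
    ∀ Q : ℝ, 2 ≤ Q → ∀ β : ℝ,
    ({y : (Fin m → ℕ) × ℕ | (∀ i, 1 ≤ y.1 i ∧ y.1 i ≤ M) ∧ y.2 < d ∧ ∃ (p : ℤ) (q : ℕ), Q ≤ q ∧
        (q : ℝ) ≤ ((M : ℝ) ^ m * d) ^ A ∧
        |(β + (s : ℝ) * ∑ i, (y.1 i : ℝ) * x i + y.2) / d - (p : ℝ) / (q : ℝ)|
          ≤ c / ((q : ℝ) ^ 2 * Real.log (q : ℝ) ^ (1 + e))}.ncard : ℝ)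
      ≤ C * c * ((M : ℝ) ^ m * d) / Real.log Q ^ e

def FinUB : Prop := GSch → Pool.Agent.Helper87.MD.CntStmt → GFou1B → GBlkU → GLog → StmtGB

end Pool.Agent.Helper73.LFU
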