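import Pool.Agent.Helper73.LFU.GoalsB
import Pool.Agent.Helper87.MD.Asm

/-!
# Linear forms and division points (MP_c307ca_nt): the final statement, with a shift
-/

set_option autoImplicit false

open Finset

namespace Pool.Agent.Helper73.LFU

open Pool.Agent.Helper98.Lang Pool.Agent.Helper73.LF Pool.Agent.Helper92.LFU

/-- the final statement -/
def MainUB : Prop := ∀ ε ε' : ℝ, 0 < ε → 0 ≤ ε' → ε' < ε →
  ∃ C : ℝ, ∀ (m : ℕ) (x : Fin m → ℝ), 1 ≤ m → (∀ i, IsAlgebraic ℚ (x i)) → Indep x →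
  ∀ c A α : ℝ, 0 < c → α < 1 →
  ∃ N0 : ℕ, ∀ M d s : ℕ, N0 ≤ M ^ m * d → 1 ≤ s → (s : ℝ) ≤ ((M : ℝ) ^ m * d) ^ α →
    ∀ β : ℝ, ((m = 1 ∧ β = 0) ∨ A + α < 1) → ∀ Q : ℝ, 2 ≤ Q →
    ({y : (Fin m → ℕ) × ℕ | (∀ i, 1 ≤ y.1 i ∧ y.1 i ≤ M) ∧ y.2 < d ∧ ∃ (p : ℤ) (q : ℕ), Q ≤ q ∧
        (q : ℝ) ≤ ((M : ℝ) ^ m * d) ^ A ∧
        |(β + (s : ℝ) * ∑ i, (y.1 i : ℝ) * x i + y.2) / d - (p : ℝ) / (q : ℝ)|
          ≤ c / ((q : ℝ) ^ 2 * Real.log (q : ℝ) ^ (1 + ε))}.ncard : ℝ)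
      ≤ C * c * ((M : ℝ) ^ m * d) / Real.log Q ^ ε'

theorem irr_of_indep {x : Fin 1 → ℝ} (h : Indep x) : Irrational (x 0) := by
  rintro ⟨r, hr⟩
  have h1 := h (-r.num) (fun _ => (r.den : ℤ)) (by
    rw [Fin.sum_univ_one, ← hr]
    have h2 : ((r.den : ℤ) : ℝ) * (r : ℝ) = (r.num : ℝ) := by
      have := Rat.den_mul_eq_num r
      exact_mod_cast this
    rw [h2]
    push_cast
    ring)
  have h3 := congrFun h1.2 0
  simp only [Pi.zero_apply] at h3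
  have h4 : r.den ≠ 0 := r.den_nz
  exact h4 (by exact_mod_cast h3)

theorem mainUB (h : StmtGB) : MainUB := by
  intro ε ε' hε hε'0 hε'
  obtain ⟨C1, hC1⟩ := Pool.Agent.Helper87.MD.main ε ε' hε hε'0 hε'
  obtain ⟨C2, hC2⟩ := h ε hε
  have hl2 : 0 < Real.log 2 := Real.log_pos (by norm_num)
  set L : ℝ := Real.log 2 ^ (ε' - ε) with hL
  have hL0 : 0 < L := Real.rpow_pos_of_pos hl2 _
  refine ⟨max C1 (max C2 0 * L), fun m x hm hx hind c A α hc hα => ?_⟩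
  -- the first N0
  have e1 : ∃ N1 : ℕ, m = 1 → ∀ M d s : ℕ, N1 ≤ M ^ m * d → 1 ≤ s →
      (s : ℝ) ≤ ((M : ℝ) ^ m * d) ^ α → ∀ Q : ℝ, 2 ≤ Q →
      ({y : (Fin m → ℕ) × ℕ | (∀ i, 1 ≤ y.1 i ∧ y.1 i ≤ M) ∧ y.2 < d ∧
          ∃ (p : ℤ) (q : ℕ), Q ≤ q ∧ (q : ℝ) ≤ ((M : ℝ) ^ m * d) ^ A ∧
          |(0 + (s : ℝ) * ∑ i, (y.1 i : ℝ) * x i + y.2) / d - (p : ℝ) / (q : ℝ)|
            ≤ c / ((q : ℝ) ^ 2 * Real.log (q : ℝ) ^ (1 + ε))}.ncard : ℝ)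
        ≤ C1 * c * ((M : ℝ) ^ m * d) / Real.log Q ^ ε' := by
    by_cases hm1 : m = 1
    · subst hm1
      obtain ⟨N1, hN1⟩ := hC1 (x 0) (hx 0) (irr_of_indep hind) c A α hc hα
      refine ⟨N1, fun _ M d s hN hs hsα Q hQ => ?_⟩
      rw [pow_one] at hN
      rw [pow_one] at hsα ⊢
      have h1 := hN1 M d s hN hs hsα Q hQ
      refine le_trans (le_of_eq ?_) h1
      congr 1
      refine Set.ncard_congr (fun y _ => (y.1 0, y.2)) ?_ ?_ ?_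
      · rintro ⟨a, b⟩ ⟨ha, hb, p, q, hq1, hq2, hq3⟩
        refine ⟨(ha 0).1, (ha 0).2, hb, p, q, hq1, hq2, ?_⟩
        rw [Fin.sum_univ_one, zero_add, ← mul_assoc] at hq3
        exact hq3
      · rintro ⟨a, b⟩ ⟨a', b'⟩ _ _ hab
        simp only [Prod.mk.injEq] at hab
        have : a = a' := by
          funext i
          rw [Fin.fin_one_eq_zero i]
          exact hab.1
        rw [this, hab.2]
      · rintro ⟨a, b⟩ ⟨ha1, ha2, hb, p, q, hq1, hq2, hq3⟩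
        refine ⟨(fun _ => a, b), ⟨fun _ => ⟨ha1, ha2⟩, hb, p, q, hq1, hq2, ?_⟩, rfl⟩
        rw [Fin.sum_univ_one, zero_add, ← mul_assoc]
        exact hq3
    · exact ⟨0, fun hm1' => absurd hm1' hm1⟩
  have e2 : ∃ N2 : ℕ, A + α < 1 → ∀ M d s : ℕ, N2 ≤ M ^ m * d → 1 ≤ s →
      (s : ℝ) ≤ ((M : ℝ) ^ m * d) ^ α → ∀ Q : ℝ, 2 ≤ Q → ∀ β : ℝ,
      ({y : (Fin m → ℕ) × ℕ | (∀ i, 1 ≤ y.1 i ∧ y.1 i ≤ M) ∧ y.2 < d ∧
          ∃ (p : ℤ) (q : ℕ), Q ≤ q ∧ (q : ℝ) ≤ ((M : ℝ) ^ m * d) ^ A ∧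
          |(β + (s : ℝ) * ∑ i, (y.1 i : ℝ) * x i + y.2) / d - (p : ℝ) / (q : ℝ)|
            ≤ c / ((q : ℝ) ^ 2 * Real.log (q : ℝ) ^ (1 + ε))}.ncard : ℝ)
        ≤ C2 * c * ((M : ℝ) ^ m * d) / Real.log Q ^ ε := by
    by_cases hA : A + α < 1
    · obtain ⟨N2, hN2⟩ := hC2 m x hm hx hind c A α hc hA
      exact ⟨N2, fun _ => hN2⟩
    · exact ⟨0, fun hA' => absurd hA' hA⟩
  obtain ⟨N1, hN1⟩ := e1
  obtain ⟨N2, hN2⟩ := e2
  refine ⟨max N1 N2, fun M d s hN hs hsα β hcase Q hQ => ?_⟩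
  have hlQ : Real.log 2 ≤ Real.log Q := Real.log_le_log (by norm_num) hQ
  have hlQ0 : 0 < Real.log Q := lt_of_lt_of_le hl2 hlQ
  have hpos : 0 < Real.log Q ^ ε' := Real.rpow_pos_of_pos hlQ0 _
  have hK : 0 ≤ (M : ℝ) ^ m * d := by positivity
  rcases hcase with ⟨hm1, hβ⟩ | hA
  · subst hβ
    refine (hN1 hm1 M d s (le_trans (le_max_left _ _) hN) hs hsα Q hQ).trans ?_
    rw [div_le_div_iff_of_pos_right hpos]
    apply mul_le_mul_of_nonneg_right _ hK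
    exact mul_le_mul_of_nonneg_right (le_max_left _ _) hc.le
  · refine (hN2 hA M d s (le_trans (le_max_right _ _) hN) hs hsα Q hQ β).trans ?_
    have hpos2 : 0 < Real.log Q ^ ε := Real.rpow_pos_of_pos hlQ0 _
    have h3 : (Real.log Q ^ ε)⁻¹ ≤ L * (Real.log Q ^ ε')⁻¹ := by
      have h4 : (Real.log Q ^ ε)⁻¹ = Real.log Q ^ (ε' - ε) * (Real.log Q ^ ε')⁻¹ := by
        rw [← Real.rpow_neg hlQ0.le, ← Real.rpow_neg hlQ0.le, ← Real.rpow_add hlQ0]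
        congr 1
        ring
      rw [h4]
      apply mul_le_mul_of_nonneg_right _ (by positivity)
      rw [hL]
      exact Real.rpow_le_rpow_of_nonpos hl2 hlQ (by linarith)
    calc C2 * c * ((M : ℝ) ^ m * d) / Real.log Q ^ ε
        ≤ max C2 0 * c * ((M : ℝ) ^ m * d) / Real.log Q ^ ε := by
          rw [div_le_div_iff_of_pos_right hpos2]
          apply mul_le_mul_of_nonneg_right _ hK
          exact mul_le_mul_of_nonneg_right (le_max_left _ _) hc.le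
      _ = max C2 0 * c * ((M : ℝ) ^ m * d) * (Real.log Q ^ ε)⁻¹ := by rw [div_eq_mul_inv]
      _ ≤ max C2 0 * c * ((M : ℝ) ^ m * d) * (L * (Real.log Q ^ ε')⁻¹) := by
          apply mul_le_mul_of_nonneg_left h3
          have : 0 ≤ max C2 0 := le_max_right _ _
          positivity
      _ = (max C2 0 * L) * c * ((M : ℝ) ^ m * d) / Real.log Q ^ ε' := by
          rw [div_eq_mul_inv]; ring
      _ ≤ max C1 (max C2 0 * L) * c * ((M : ℝ) ^ m * d) / Real.log Q ^ ε' := by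
          rw [div_le_div_iff_of_pos_right hpos]
          apply mul_le_mul_of_nonneg_right _ hK
          exact mul_le_mul_of_nonneg_right (le_max_right _ _) hc.le

end Pool.Agent.Helper73.LFU
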